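import Mathlib

/-!
# Homomorphic images of countable ultraproducts: solving systems, divisible subgroups
-/

set_option autoImplicit false
set_option linter.all false

namespace Pool.Agent.R677.UI

universe u v

section solve

variable {G : Type u} [Group G] {H : ℕ → Type v} [∀ i, Group (H i)]

/-- A self-map of `G` which lifts coordinatewise to the product. -/
def Lft (f : (∀ i, H i) →* G) (w : G → G) : Prop :=
  ∃ ω : ∀ n, H n → H n, ∀ h : ∀ i, H i, f (fun n => ω n (h n)) = w (f h)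

theorem Lft.id (f : (∀ i, H i) →* G) : Lft f (fun x => x) := ⟨fun _ x => x, fun _ => rfl⟩

theorem Lft.const {f : (∀ i, H i) →* G} (hf : Function.Surjective f) (g : G) :
    Lft f (fun _ => g) := by
  obtain ⟨a, rfl⟩ := hf g
  exact ⟨fun n _ => a n, fun _ => rfl⟩

theorem Lft.mul {f : (∀ i, H i) →* G} {w w' : G → G} (h : Lft f w) (h' : Lft f w') :
    Lft f (fun x => w x * w' x) := by
  obtain ⟨ω, hω⟩ := h
  obtain ⟨ω', hω'⟩ := h'
  refine ⟨fun n x => ω n x * ω' n x, fun h => ?_⟩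
  show f (fun n => ω n (h n) * ω' n (h n)) = w (f h) * w' (f h)
  rw [← hω, ← hω', ← map_mul]
  rfl

theorem Lft.inv {f : (∀ i, H i) →* G} {w : G → G} (h : Lft f w) :
    Lft f (fun x => (w x)⁻¹) := by
  obtain ⟨ω, hω⟩ := h
  refine ⟨fun n x => (ω n x)⁻¹, fun h => ?_⟩
  show f (fun n => (ω n (h n))⁻¹) = (w (f h))⁻¹
  rw [← hω, ← map_inv]
  rfl

theorem Lft.pow {f : (∀ i, H i) →* G} {w : G → G} (h : Lft f w) (k : ℕ) :
    Lft f (fun x => w x ^ k) := by
  obtain ⟨ω, hω⟩ := h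
  refine ⟨fun n x => ω n x ^ k, fun h => ?_⟩
  show f (fun n => ω n (h n) ^ k) = w (f h) ^ k
  rw [← hω, ← map_pow]
  rfl

/-- Solutions of infinite systems in homomorphic images of ultraproducts. -/
theorem solve {f : (∀ i, H i) →* G} {U : Ultrafilter ℕ} (hU : ∀ n, U ≠ pure n)
    (hker : ∀ h : ∀ i, H i, {i | h i = 1} ∈ U → f h = 1) (w : ℕ → G → G)
    (hw : ∀ i, Lft f (w i)) : ∃ h : ℕ → G, ∀ i, h i = w i (h (i + 1)) := by
  choose ω hω using hw
  let z : ∀ n : ℕ, ℕ → H n := fun n k => Nat.rec 1 (fun k x => ω (n - k) n x) k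
  have hz : ∀ n k, z n (k + 1) = ω (n - k) n (z n k) := fun n k => rfl
  refine ⟨fun i => f (fun n => z n (n + 1 - i)), fun i => ?_⟩
  show f (fun n => z n (n + 1 - i)) = w i (f (fun n => z n (n + 1 - (i + 1))))
  rw [← hω]
  have hmem : {n | i ≤ n} ∈ U := by
    by_contra hn
    rw [← Ultrafilter.compl_mem_iff_notMem] at hn
    have hfin : ({n | i ≤ n}ᶜ : Set ℕ).Finite := by
      refine (Set.finite_lt_nat i).subset fun n hn => ?_
      simpa using hn
    obtain ⟨n, _, hn'⟩ := Ultrafilter.eq_pure_of_finite_mem hfin hn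
    exact hU n hn'
  rw [← mul_inv_eq_one, ← map_inv, ← map_mul]
  refine hker _ (Filter.mem_of_superset hmem fun n hn => ?_)
  have hn' : i ≤ n := hn
  show z n (n + 1 - i) * (ω i n (z n (n + 1 - (i + 1))))⁻¹ = 1
  rw [show n + 1 - i = (n - i) + 1 by omega, show n + 1 - (i + 1) = n - i by omega, hz,
    show n - (n - i) = i by omega, mul_inv_cancel]

end solve

section divis

variable {G : Type u} [Group G]

/-- A sequence of roots generates a divisible subgroup. -/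
theorem divisible_of_seq {e : ℕ} (x : ℕ → G) (hx : ∀ n, x n = x (n + 1) ^ (e * (n + 1).factorial))
    (h0 : x 0 ≠ 1) :
    ∃ D : Subgroup G, D ≠ ⊥ ∧ ∀ d ∈ D, ∀ n : ℕ, 1 ≤ n → ∃ y ∈ D, y ^ n = d := by
  have hmono : Monotone fun n => Subgroup.zpowers (x n) := by
    refine monotone_nat_of_le_succ fun n => ?_
    rw [Subgroup.zpowers_le, hx n]
    exact Subgroup.pow_mem _ (Subgroup.mem_zpowers _) _
  refine ⟨⨆ n, Subgroup.zpowers (x n), ?_, ?_⟩
  · intro h
    have h1 : x 0 ∈ ⨆ n, Subgroup.zpowers (x n) :=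
      Subgroup.mem_iSup_of_mem 0 (Subgroup.mem_zpowers _)
    rw [h, Subgroup.mem_bot] at h1
    exact h0 h1
  · intro d hd r hr
    rw [Subgroup.mem_iSup_of_directed hmono.directed_le] at hd
    obtain ⟨n, hn⟩ := hd
    have hn' : d ∈ Subgroup.zpowers (x (max n r)) := hmono (le_max_left n r) hn
    obtain ⟨k, hk⟩ := Subgroup.mem_zpowers_iff.1 hn'
    have hdvd : r ∣ e * (max n r + 1).factorial :=
      Dvd.dvd.mul_left (Nat.dvd_factorial (by omega) (by omega)) e
    obtain ⟨s, hs⟩ := hdvd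
    refine ⟨x (max n r + 1) ^ ((s : ℤ) * k), Subgroup.mem_iSup_of_mem (max n r + 1)
      (Subgroup.zpow_mem _ (Subgroup.mem_zpowers _) _), ?_⟩
    rw [← hk, hx (max n r), hs, ← zpow_natCast, ← zpow_natCast, ← zpow_mul, ← zpow_mul]
    congr 1
    push_cast
    ring

end divis

section abel

variable {G : Type u} [Group G] {H : ℕ → Type v} [∀ i, Group (H i)]

/-- In an abelian normal subgroup of bounded index exponent the powers of some exponent are
infinitely divisible. -/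
theorem exists_exp {f : (∀ i, H i) →* G} (hf : Function.Surjective f) {U : Ultrafilter ℕ}
    (hU : ∀ n, U ≠ pure n) (hker : ∀ h : ∀ i, H i, {i | h i = 1} ∈ U → f h = 1)
    (htors : ∀ g : G, ∃ n : ℕ, 1 ≤ n ∧ g ^ n = 1) (A : Subgroup G)
    (hA : ∀ a ∈ A, ∀ b ∈ A, a * b = b * a) (e : ℕ) (he : 1 ≤ e) (hAe : ∀ g : G, g ^ e ∈ A) :
    ∃ E : ℕ, 1 ≤ E ∧ ∀ x ∈ A, ∀ n : ℕ, ∃ y ∈ A, y ^ n.factorial = x ^ E := by
  by_contra hcon
  push Not at hcon
  have hstep : ∀ (k : ℕ) (a : G) (n : ℕ), a ∈ A → ∃ (b : G) (n' : ℕ), b ∈ A ∧ n + e ≤ n' ∧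
      ∀ y ∈ A, y ^ n'.factorial ≠ (a * b ^ n.factorial) ^ (k + 1).factorial := by
    intro k a n ha
    have key : ∃ b ∈ A, ∃ j : ℕ, ∀ y ∈ A,
        y ^ j.factorial ≠ (a * b ^ n.factorial) ^ (k + 1).factorial := by
      by_contra hn
      push Not at hn
      obtain ⟨x, hx, j, hj⟩ := hcon (n.factorial * (k + 1).factorial)
        (Nat.succ_le_of_lt (Nat.mul_pos (Nat.factorial_pos _) (Nat.factorial_pos _)))
      obtain ⟨y1, hy1, h1⟩ := hn 1 A.one_mem j
      obtain ⟨y2, hy2, h2⟩ := hn x hx j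
      rw [one_pow, mul_one] at h1
      have hc1 : Commute a (x ^ n.factorial) := hA _ ha _ (A.pow_mem hx _)
      rw [hc1.mul_pow, ← h1, ← pow_mul] at h2
      refine hj (y1⁻¹ * y2) (A.mul_mem (A.inv_mem hy1) hy2) ?_
      have hc2 : Commute y1⁻¹ y2 := hA _ (A.inv_mem hy1) _ hy2
      rw [hc2.mul_pow, h2, inv_pow, inv_mul_cancel_left]
    obtain ⟨b, hb, j, hj⟩ := key
    refine ⟨b, max j (n + e), hb, le_max_right _ _, fun y hy hyn => ?_⟩
    obtain ⟨s, hs⟩ := Nat.factorial_dvd_factorial (le_max_left j (n + e))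
    refine hj (y ^ s) (A.pow_mem hy _) ?_
    rw [← hyn, ← pow_mul, hs, mul_comm]
  choose! B N hB hN hBN using hstep
  -- the sequences
  let st : ℕ → G × ℕ := fun k => Nat.rec (1, 0)
    (fun k p => (p.1 * B k p.1 p.2 ^ p.2.factorial, N k p.1 p.2)) k
  have hst0 : st 0 = (1, 0) := rfl
  have hst : ∀ k, st (k + 1) = ((st k).1 * B k (st k).1 (st k).2 ^ (st k).2.factorial,
      N k (st k).1 (st k).2) := fun k => rfl
  have hstA : ∀ k, (st k).1 ∈ A := by
    intro k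
    induction k with
    | zero => exact A.one_mem
    | succ k ih =>
      rw [hst]
      exact A.mul_mem ih (A.pow_mem (hB k _ _ ih) _)
  have hr : ∀ k, ∃ s : ℕ, (st (k + 1)).2.factorial = (st k).2.factorial * (e * s) := by
    intro k
    have h1 : (st k).2.factorial * e.factorial ∣ (st (k + 1)).2.factorial := by
      refine (Nat.factorial_mul_factorial_dvd_factorial_add _ _).trans
        (Nat.factorial_dvd_factorial ?_)
      rw [hst]
      exact hN k _ _ (hstA k)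
    have h2 : (st k).2.factorial * e ∣ (st (k + 1)).2.factorial :=
      (Nat.mul_dvd_mul_left _ (Nat.dvd_factorial he le_rfl)).trans h1
    obtain ⟨s, hs⟩ := h2
    exact ⟨s, by rw [hs, mul_assoc]⟩
  choose s hs using hr
  obtain ⟨h, hh⟩ := solve hU hker (fun k x => B k (st k).1 (st k).2 * x ^ (e * s k))
    (fun k => (Lft.const hf _).mul ((Lft.id f).pow _))
  have hhA : ∀ k, h k ∈ A := by
    intro k
    rw [hh k]
    refine A.mul_mem (hB k _ _ (hstA k)) ?_
    rw [pow_mul]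
    exact A.pow_mem (hAe _) _
  have hinv : ∀ k, h 0 = (st k).1 * h k ^ (st k).2.factorial := by
    intro k
    induction k with
    | zero => rw [hst0]; simp
    | succ k ih =>
      rw [ih]
      nth_rewrite 1 [hh k]
      have hc : Commute (B k (st k).1 (st k).2) (h (k + 1) ^ (e * s k)) :=
        hA _ (hB k _ _ (hstA k)) _ (A.pow_mem (hhA _) _)
      rw [hc.mul_pow, ← pow_mul, ← mul_assoc, hs k, hst k, mul_comm (e * s k)]
  obtain ⟨m, hm, hm1⟩ := htors (h 0)
  have h1 : h 0 ^ (m + 1).factorial = 1 := by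
    obtain ⟨t, ht⟩ := Nat.dvd_factorial hm (Nat.le_succ m)
    rw [ht, pow_mul, hm1, one_pow]
  rw [hinv (m + 1)] at h1
  have hc : Commute (st (m + 1)).1 (h (m + 1) ^ (st (m + 1)).2.factorial) :=
    hA _ (hstA (m + 1)) _ (A.pow_mem (hhA (m + 1)) _)
  rw [hc.mul_pow] at h1
  have h2 := hBN m (st m).1 (st m).2 (hstA m) ((h (m + 1))⁻¹ ^ (m + 1).factorial)
    (A.pow_mem (A.inv_mem (hhA _)) _)
  apply h2
  have h3 : (st (m + 1)).2 = N m (st m).1 (st m).2 := by rw [hst]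
  have h4 : (st (m + 1)).1 = (st m).1 * B m (st m).1 (st m).2 ^ (st m).2.factorial := by rw [hst]
  rw [← h3, ← h4, eq_inv_of_mul_eq_one_left h1, ← pow_mul, ← pow_mul, inv_pow, mul_comm]

/-- Root sequences in abelian normal subgroups of bounded index exponent. -/
theorem exists_roots {A : Subgroup G} {E : ℕ} (hE : 1 ≤ E)
    (h : ∀ x ∈ A, ∀ n : ℕ, ∃ y ∈ A, y ^ n.factorial = x ^ E)
    (hunb : ∃ x ∈ A, x ^ E ≠ 1) (m : ℕ → ℕ) (hm : ∀ n, 1 ≤ m n) :
    ∃ c : ℕ → G, (∀ n, c n ∈ A) ∧ (∀ n, c n = c (n + 1) ^ m n) ∧ c 0 ≠ 1 := by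
  have hroot : ∀ (x : G) (r : ℕ), x ∈ A → 1 ≤ r → ∃ z ∈ A, (z ^ E) ^ r = x ^ E := by
    intro x r hx hr
    obtain ⟨y, hy, hyx⟩ := h x hx (E * r)
    obtain ⟨t, ht⟩ := Nat.dvd_factorial (Nat.mul_pos hE hr) (le_refl (E * r))
    refine ⟨y ^ t, A.pow_mem hy _, ?_⟩
    rw [← hyx, ht, ← pow_mul, ← pow_mul, mul_comm t]
  choose! Z hZ hZ' using hroot
  obtain ⟨x, hx, hxE⟩ := hunb
  let z : ℕ → G := fun n => Nat.rec x (fun n y => Z y (m n)) n
  have hz : ∀ n, z (n + 1) = Z (z n) (m n) := fun n => rfl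
  have hzA : ∀ n, z n ∈ A := by
    intro n
    induction n with
    | zero => exact hx
    | succ n ih => rw [hz]; exact hZ _ _ ih (hm n)
  refine ⟨fun n => z n ^ E, fun n => A.pow_mem (hzA n) _, fun n => ?_, hxE⟩
  show z n ^ E = (z (n + 1) ^ E) ^ m n
  rw [hz, hZ' _ _ (hzA n) (hm n)]

end abel

end Pool.Agent.R677.UI
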