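import Pool.Agent.R677.UI.Nil

/-!
# Divisible subgroups of unbounded torsion images of ultraproducts
-/

set_option autoImplicit false
set_option linter.all false

namespace Pool.Agent.R677.UI

universe u v

open scoped commutatorElement

variable {G : Type u} [Group G] {H : ℕ → Type v} [∀ i, Group (H i)]

/-- Lifting of root sequences through a normal subgroup of bounded exponent with abelian quotient. -/
theorem lift_roots {f : (∀ i, H i) →* G} (hf : Function.Surjective f) {U : Ultrafilter ℕ}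
    (hU : ∀ n, U ≠ pure n) (hker : ∀ h : ∀ i, H i, {i | h i = 1} ∈ U → f h = 1)
    (K : Subgroup G) [K.Normal] {e : ℕ} (hKe : ∀ k ∈ K, k ^ e = 1)
    (hab : ∀ x y : G, ⁅x, y⁆ ∈ K) (m : ℕ → ℕ) (hm : ∀ n, e ∣ m n) (y : ℕ → G)
    (hy : ∀ n, (y n)⁻¹ * y (n + 1) ^ m n ∈ K) (h0 : y 0 ∉ K) :
    ∃ x : ℕ → G, (∀ n, x n = x (n + 1) ^ m n) ∧ x 0 ≠ 1 := by
  obtain ⟨a, ha⟩ := solve hU hker
    (fun n x => ((y n)⁻¹ * (y (n + 1) * x) ^ m n) * (x ^ m n)⁻¹) (fun n =>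
      ((Lft.const hf _).mul (((Lft.const hf _).mul (Lft.id f)).pow _)).mul ((Lft.id f).pow _).inv)
  have haK : ∀ n, a n ∈ K := by
    intro n
    rw [ha n, ← QuotientGroup.eq_one_iff]
    have hc : ∀ x y : G ⧸ K, Commute x y := by
      intro x y
      obtain ⟨x, rfl⟩ := QuotientGroup.mk_surjective x
      obtain ⟨y, rfl⟩ := QuotientGroup.mk_surjective y
      have h1 : ((⁅x, y⁆ : G) : G ⧸ K) = 1 := (QuotientGroup.eq_one_iff _).2 (hab x y)
      rw [commutatorElement_def, QuotientGroup.mk_mul, QuotientGroup.mk_mul, QuotientGroup.mk_mul,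
        QuotientGroup.mk_inv, QuotientGroup.mk_inv, mul_inv_eq_one, mul_inv_eq_iff_eq_mul] at h1
      exact h1
    have h2 : (((y n)⁻¹ * y (n + 1) ^ m n : G) : G ⧸ K) = 1 := (QuotientGroup.eq_one_iff _).2 (hy n)
    rw [QuotientGroup.mk_mul, QuotientGroup.mk_inv, QuotientGroup.mk_pow] at h2
    rw [QuotientGroup.mk_mul, QuotientGroup.mk_mul, QuotientGroup.mk_inv, QuotientGroup.mk_inv,
      QuotientGroup.mk_pow, QuotientGroup.mk_pow, QuotientGroup.mk_mul, (hc _ _).mul_pow,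
      ← mul_assoc, mul_inv_cancel_right, h2]
  refine ⟨fun n => y n * a n, fun n => ?_, fun h => h0 ?_⟩
  · show y n * a n = (y (n + 1) * a (n + 1)) ^ m n
    obtain ⟨s, hs⟩ := hm n
    have h1 : a (n + 1) ^ m n = 1 := by rw [hs, pow_mul, hKe _ (haK _), one_pow]
    rw [ha n, h1, inv_one, mul_one, mul_inv_cancel_left]
  · have h' : y 0 * a 0 = 1 := h
    rw [eq_inv_of_mul_eq_one_left h']
    exact K.inv_mem (haK 0)

theorem main_bn (f : (∀ i, H i) →* G) (hf : Function.Surjective f) (U : Ultrafilter ℕ)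
    (hU : ∀ n, U ≠ pure n) (hker : ∀ h : ∀ i, H i, {i | h i = 1} ∈ U → f h = 1)
    (htors : ∀ g : G, ∃ n : ℕ, 1 ≤ n ∧ g ^ n = 1) (hunb : ∀ n : ℕ, 1 ≤ n → ∃ g : G, g ^ n ≠ 1)
    (K : Subgroup G) [K.Normal] (e : ℕ) (he : 1 ≤ e) (hKe : ∀ k ∈ K, k ^ e = 1)
    (hnil : Group.IsNilpotent (G ⧸ K)) :
    ∃ D : Subgroup G, D ≠ ⊥ ∧ ∀ d ∈ D, ∀ n : ℕ, 1 ≤ n → ∃ y ∈ D, y ^ n = d := by
  -- the commutator subgroup of the quotient is bounded
  have htorsQ : ∀ g : G ⧸ K, ∃ n : ℕ, 1 ≤ n ∧ g ^ n = 1 := by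
    intro g
    obtain ⟨g, rfl⟩ := QuotientGroup.mk_surjective g
    obtain ⟨n, hn, h⟩ := htors g
    exact ⟨n, hn, by rw [← QuotientGroup.mk_pow, h, QuotientGroup.mk_one]⟩
  obtain ⟨E1, hE1, hE1'⟩ : ∃ E : ℕ, 1 ≤ E ∧ ∀ (x : Abelianization (G ⧸ K)) (n : ℕ),
      ∃ y : Abelianization (G ⧸ K), y ^ n.factorial = x ^ E := by
    have g1 : Function.Surjective ((Abelianization.of.comp (QuotientGroup.mk' K)).comp f) := by
      intro x
      obtain ⟨x, rfl⟩ := QuotientGroup.mk_surjective x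
      obtain ⟨x, rfl⟩ := QuotientGroup.mk_surjective x
      obtain ⟨x, rfl⟩ := hf x
      exact ⟨x, rfl⟩
    have g2 : ∀ h : ∀ i, H i, {i | h i = 1} ∈ U →
        ((Abelianization.of.comp (QuotientGroup.mk' K)).comp f) h = 1 := by
      intro h hh
      rw [MonoidHom.comp_apply, hker h hh, map_one]
    have g3 : ∀ g : Abelianization (G ⧸ K), ∃ n : ℕ, 1 ≤ n ∧ g ^ n = 1 := by
      intro g
      obtain ⟨g, rfl⟩ := QuotientGroup.mk_surjective g
      obtain ⟨n, hn, h⟩ := htorsQ g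
      refine ⟨n, hn, ?_⟩
      have h1 : (Abelianization.of g) ^ n = 1 := by rw [← map_pow, h, map_one]
      exact h1
    obtain ⟨E, hE, h⟩ := exists_exp g1 hU g2 g3
      (⊤ : Subgroup (Abelianization (G ⧸ K))) (fun a _ b _ => mul_comm a b) 1 le_rfl
      (fun g => Subgroup.mem_top _)
    refine ⟨E, hE, fun x n => ?_⟩
    obtain ⟨y, _, hy⟩ := h x (Subgroup.mem_top x) n
    exact ⟨y, hy⟩
  obtain ⟨E2, hE2, hE2'⟩ := nil_bdd htorsQ hE1 hE1'
  -- the new subgroup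
  let K' : Subgroup G := (commutator (G ⧸ K)).comap (QuotientGroup.mk' K)
  have hK'n : K'.Normal := Subgroup.Normal.comap inferInstance _
  have hK'e : ∀ k ∈ K', k ^ (E2 * e) = 1 := by
    intro k hk
    have h1 : (QuotientGroup.mk' K k) ^ E2 = 1 := hE2' 1 1 _ hk
    have h2 : k ^ E2 ∈ K := by
      rw [← QuotientGroup.eq_one_iff, QuotientGroup.mk_pow]
      exact h1
    rw [pow_mul]
    exact hKe _ h2
  have hab : ∀ x y : G, ⁅x, y⁆ ∈ K' := by
    intro x y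
    rw [Subgroup.mem_comap, map_commutatorElement]
    exact Subgroup.commutator_mem_commutator (Subgroup.mem_top _) (Subgroup.mem_top _)
  -- the quotient by the new subgroup
  have hcomm : ∀ a b : G ⧸ K', a * b = b * a := by
    intro a b
    obtain ⟨a, rfl⟩ := QuotientGroup.mk_surjective a
    obtain ⟨b, rfl⟩ := QuotientGroup.mk_surjective b
    have h1 : ((⁅a, b⁆ : G) : G ⧸ K') = 1 := (QuotientGroup.eq_one_iff _).2 (hab a b)
    rw [commutatorElement_def, QuotientGroup.mk_mul, QuotientGroup.mk_mul, QuotientGroup.mk_mul,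
      QuotientGroup.mk_inv, QuotientGroup.mk_inv, mul_inv_eq_one, mul_inv_eq_iff_eq_mul] at h1
    exact h1
  obtain ⟨E, hE, hE'⟩ := exists_exp (f := (QuotientGroup.mk' K').comp f)
    ((QuotientGroup.mk'_surjective K').comp hf) hU
    (fun h hh => by rw [MonoidHom.comp_apply, hker h hh, map_one])
    (fun g => by
      obtain ⟨g, rfl⟩ := QuotientGroup.mk_surjective g
      obtain ⟨n, hn, h⟩ := htors g
      exact ⟨n, hn, by rw [← QuotientGroup.mk_pow, h, QuotientGroup.mk_one]⟩)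
    (⊤ : Subgroup (G ⧸ K')) (fun a _ b _ => hcomm a b) 1 le_rfl (fun g => Subgroup.mem_top _)
  have hunb' : ∃ x ∈ (⊤ : Subgroup (G ⧸ K')), x ^ E ≠ 1 := by
    obtain ⟨g, hg⟩ := hunb (E * (E2 * e)) (Nat.mul_pos hE (Nat.mul_pos hE2 he))
    refine ⟨(g : G ⧸ K'), Subgroup.mem_top _, fun h => hg ?_⟩
    rw [← QuotientGroup.mk_pow, QuotientGroup.eq_one_iff] at h
    rw [pow_mul]
    exact hK'e _ h
  obtain ⟨c, _, hc, hc0⟩ := exists_roots hE hE' hunb' (fun n => (E2 * e) * (n + 1).factorial)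
    (fun n => Nat.mul_pos (Nat.mul_pos hE2 he) (Nat.factorial_pos _))
  choose y hy using fun n => QuotientGroup.mk_surjective (c n)
  have k1 : ∀ n, (y n)⁻¹ * y (n + 1) ^ ((E2 * e) * (n + 1).factorial) ∈ K' := by
    intro n
    rw [← QuotientGroup.eq_one_iff, QuotientGroup.mk_mul, QuotientGroup.mk_inv,
      QuotientGroup.mk_pow]
    have h1 : ((y n : G) : G ⧸ K') = c n := hy n
    have h2 : ((y (n + 1) : G) : G ⧸ K') = c (n + 1) := hy (n + 1)
    rw [h1, h2, ← hc n, inv_mul_cancel]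
  have k2 : y 0 ∉ K' := by
    intro h
    apply hc0
    rw [← hy 0]
    exact (QuotientGroup.eq_one_iff _).2 h
  obtain ⟨x, hx, hx0⟩ := lift_roots hf hU hker K' hK'e hab
    (fun n => (E2 * e) * (n + 1).factorial) (fun n => Dvd.intro _ rfl) y k1 k2
  exact divisible_of_seq x hx hx0

theorem main_ab (f : (∀ i, H i) →* G) (hf : Function.Surjective f) (U : Ultrafilter ℕ)
    (hU : ∀ n, U ≠ pure n) (hker : ∀ h : ∀ i, H i, {i | h i = 1} ∈ U → f h = 1)
    (htors : ∀ g : G, ∃ n : ℕ, 1 ≤ n ∧ g ^ n = 1) (hunb : ∀ n : ℕ, 1 ≤ n → ∃ g : G, g ^ n ≠ 1)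
    (A : Subgroup G) (hA : ∀ a ∈ A, ∀ b ∈ A, a * b = b * a) (e : ℕ) (he : 1 ≤ e)
    (hAe : ∀ g : G, g ^ e ∈ A) :
    ∃ D : Subgroup G, D ≠ ⊥ ∧ ∀ d ∈ D, ∀ n : ℕ, 1 ≤ n → ∃ y ∈ D, y ^ n = d := by
  obtain ⟨E, hE, hE'⟩ := exists_exp hf hU hker htors A hA e he hAe
  have hunb' : ∃ x ∈ A, x ^ E ≠ 1 := by
    obtain ⟨g, hg⟩ := hunb (e * E) (Nat.mul_pos he hE)
    exact ⟨g ^ e, hAe g, by rwa [← pow_mul]⟩
  obtain ⟨c, _, hc, hc0⟩ := exists_roots hE hE' hunb' (fun n => 1 * (n + 1).factorial)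
    (fun n => Nat.mul_pos Nat.one_pos (Nat.factorial_pos _))
  exact divisible_of_seq c hc hc0

end Pool.Agent.R677.UI
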