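import Pool.Agent.R677.UI.Core

/-!
# Nilpotent homomorphic images of ultraproducts have commutator subgroups of bounded exponent
-/

set_option autoImplicit false
set_option linter.all false

namespace Pool.Agent.R677.UI

universe u v

open scoped commutatorElement

theorem comm_mul_right {R : Type u} [Group R] {a b c : R} (h : ⁅a, c⁆ ∈ Subgroup.center R) :
    ⁅a, b * c⁆ = ⁅a, b⁆ * ⁅a, c⁆ := by
  have h1 := Subgroup.mem_center_iff.1 h b
  have e : ⁅a, b * c⁆ = ⁅a, b⁆ * (b * ⁅a, c⁆ * b⁻¹) := by
    simp only [commutatorElement_def]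
    group
  rw [e, h1]
  group

theorem comm_pow_left {R : Type u} [Group R] {a c : R} (h : ⁅a, c⁆ ∈ Subgroup.center R) (k : ℕ) :
    ⁅a ^ k, c⁆ = ⁅a, c⁆ ^ k := by
  induction k with
  | zero => simp [commutatorElement_def]
  | succ k ih =>
    have h1 := Subgroup.mem_center_iff.1 h (a ^ k)
    have e : ⁅a ^ (k + 1), c⁆ = (a ^ k * ⁅a, c⁆ * (a ^ k)⁻¹) * ⁅a ^ k, c⁆ := by
      rw [pow_succ]
      simp only [commutatorElement_def]
      group
    rw [e, h1, ih, mul_inv_cancel_right, pow_succ']

/-- The key computation. -/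
theorem comm_exp {Q : Type u} [Group Q] (htors : ∀ g : Q, ∃ n : ℕ, 1 ≤ n ∧ g ^ n = 1) {E : ℕ}
    (hE : ∀ (x : Abelianization Q) (n : ℕ), ∃ y : Abelianization Q, y ^ n.factorial = x ^ E)
    {R : Type u} [Group R] (π : Q →* R) (a : Q) (ha : ∀ b, ⁅π a, π b⁆ ∈ Subgroup.center R) (b : Q) :
    ⁅π a, π b⁆ ^ E = 1 := by
  let φ : Q →* Subgroup.center R :=
    { toFun := fun b => ⟨⁅π a, π b⁆, ha b⟩
      map_one' := by
        apply Subtype.ext
        simp [commutatorElement_def]
      map_mul' := fun b c => by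
        apply Subtype.ext
        show ⁅π a, π (b * c)⁆ = ⁅π a, π b⁆ * ⁅π a, π c⁆
        rw [map_mul, comm_mul_right (ha c)] }
  have hφ : ∀ b, ((φ b : Subgroup.center R) : R) = ⁅π a, π b⁆ := fun b => rfl
  obtain ⟨n, hn, hn1⟩ := htors a
  obtain ⟨y, hy⟩ := hE (Abelianization.of b) n
  obtain ⟨c, rfl⟩ := QuotientGroup.mk_surjective y
  have hy' : (Abelianization.of c) ^ n.factorial = Abelianization.of b ^ E := hy
  have h1 : φ b ^ E = φ c ^ n.factorial := by
    letI : CommGroup (Subgroup.center R) :=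
      { (inferInstance : Group (Subgroup.center R)) with
        mul_comm := fun x y => Subtype.ext (Subgroup.mem_center_iff.1 y.2 x) }
    have l : ∀ x, Abelianization.lift (A := Subgroup.center R) φ (Abelianization.of x) = φ x :=
      fun x => Abelianization.lift_apply_of (A := Subgroup.center R) φ x
    have h0 := congrArg (Abelianization.lift (A := Subgroup.center R) φ) hy'
    rw [map_pow (Abelianization.lift (A := Subgroup.center R) φ),
      map_pow (Abelianization.lift (A := Subgroup.center R) φ), l, l] at h0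
    exact h0.symm
  have h2 : ⁅π a, π b⁆ ^ E = ⁅π a, π c⁆ ^ n.factorial := by
    rw [← hφ b, ← hφ c, ← Subgroup.coe_pow, ← Subgroup.coe_pow, h1]
  obtain ⟨t, ht⟩ := Nat.dvd_factorial hn le_rfl
  have h3 : a ^ n.factorial = 1 := by rw [ht, pow_mul, hn1, one_pow]
  rw [h2, ← comm_pow_left (ha c), ← map_pow, h3, map_one]
  simp [commutatorElement_def]

/-- The commutator subgroup of a nilpotent torsion group has bounded exponent, if powers in the
abelianization are divisible. -/
theorem nil_bdd {Q : Type u} [Group Q] [hQ : Group.IsNilpotent Q]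
    (htors : ∀ g : Q, ∃ n : ℕ, 1 ≤ n ∧ g ^ n = 1) {E : ℕ} (hE0 : 1 ≤ E)
    (hE : ∀ (x : Abelianization Q) (n : ℕ), ∃ y : Abelianization Q, y ^ n.factorial = x ^ E) :
    ∃ E' : ℕ, 1 ≤ E' ∧ ∀ x y : Q, ∀ u ∈ commutator Q, u ^ E' = 1 := by
  have hstep : ∀ i, ∀ u ∈ (⊤ : Subgroup Q).lowerCentralSeries (i + 1),
      u ^ E ∈ (⊤ : Subgroup Q).lowerCentralSeries (i + 2) := by
    intro i u hu
    let π : Q →* Q ⧸ (⊤ : Subgroup Q).lowerCentralSeries (i + 2) := QuotientGroup.mk' _
    have hker : ∀ x, π x = 1 ↔ x ∈ (⊤ : Subgroup Q).lowerCentralSeries (i + 2) := fun x =>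
      QuotientGroup.eq_one_iff x
    have hcen : ∀ x ∈ (⊤ : Subgroup Q).lowerCentralSeries (i + 1),
        π x ∈ Subgroup.center (Q ⧸ (⊤ : Subgroup Q).lowerCentralSeries (i + 2)) := by
      intro x hx
      rw [Subgroup.mem_center_iff]
      intro r
      obtain ⟨r, rfl⟩ := QuotientGroup.mk_surjective r
      have h1 : ⁅x, r⁆ ∈ (⊤ : Subgroup Q).lowerCentralSeries (i + 2) := by
        rw [show i + 2 = (i + 1) + 1 from rfl, Subgroup.lowerCentralSeries_succ]
        exact Subgroup.commutator_mem_commutator hx (Subgroup.mem_top r)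
      have h2 : ⁅π x, π r⁆ = 1 := by
        rw [← map_commutatorElement]
        exact (hker _).2 h1
      exact (commutatorElement_eq_one_iff_mul_comm.1 h2).symm
    rw [← hker, map_pow]
    have key : π u ∈ Subgroup.center (Q ⧸ (⊤ : Subgroup Q).lowerCentralSeries (i + 2)) ∧
        π u ^ E = 1 := by
      rw [Subgroup.lowerCentralSeries_succ, Subgroup.commutator_def] at hu
      induction hu using Subgroup.closure_induction with
      | mem x hx =>
        obtain ⟨a, ha, b, -, rfl⟩ := hx
        have h1 : ∀ c : Q, ⁅π a, π c⁆ ∈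
            Subgroup.center (Q ⧸ (⊤ : Subgroup Q).lowerCentralSeries (i + 2)) := by
          intro c
          rw [← map_commutatorElement]
          apply hcen
          rw [Subgroup.lowerCentralSeries_succ]
          exact Subgroup.commutator_mem_commutator ha (Subgroup.mem_top c)
        rw [map_commutatorElement]
        exact ⟨h1 b, comm_exp htors hE π a h1 b⟩
      | one =>
        rw [map_one]
        exact ⟨Subgroup.one_mem _, one_pow _⟩
      | mul x y hx hy ihx ihy =>
        rw [map_mul]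
        refine ⟨Subgroup.mul_mem _ ihx.1 ihy.1, ?_⟩
        have hc : Commute (π x) (π y) := (Subgroup.mem_center_iff.1 ihx.1 (π y)).symm
        rw [hc.mul_pow, ihx.2, ihy.2, one_mul]
      | inv x hx ih =>
        rw [map_inv]
        exact ⟨Subgroup.inv_mem _ ih.1, by rw [inv_pow, ih.2, inv_one]⟩
    exact key.2
  obtain ⟨c, hc⟩ := Subgroup.nilpotent_iff_lowerCentralSeries.1 hQ
  have hall : ∀ i, ∀ u ∈ commutator Q, u ^ E ^ i ∈ (⊤ : Subgroup Q).lowerCentralSeries (i + 1) := by
    intro i
    induction i with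
    | zero =>
      intro u hu
      rw [pow_zero, pow_one, zero_add, Subgroup.top_lowerCentralSeries_one]
      exact hu
    | succ i ih =>
      intro u hu
      rw [pow_succ, pow_mul]
      exact hstep i _ (ih u hu)
  refine ⟨E ^ c, Nat.pos_of_ne_zero (pow_ne_zero _ (by omega)), fun _ _ u hu => ?_⟩
  have h1 := hall c u hu
  have h2 : (⊤ : Subgroup Q).lowerCentralSeries (c + 1) ≤ (⊤ : Subgroup Q).lowerCentralSeries c :=
    Subgroup.lowerCentralSeries_antitone _ (Nat.le_succ c)
  have h3 := h2 h1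
  rw [hc, Subgroup.mem_bot] at h3
  exact h3

end Pool.Agent.R677.UI
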