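import Pool.Agent.R677.UI.Main

/-!
# Nilpotent-by-bounded homomorphic images of ultraproducts
-/

set_option autoImplicit false
set_option linter.all false

namespace Pool.Agent.R677.UI

universe u v

open scoped commutatorElement

/-- In a nilpotent group with commutator subgroup of bounded exponent, some power only depends on
the class modulo the commutator subgroup. -/
theorem pow_congr {Q : Type u} [Group Q] [hQ : Group.IsNilpotent Q] {E : ℕ} (hE0 : 1 ≤ E)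
    (hE : ∀ u ∈ commutator Q, u ^ E = 1) :
    ∃ M : ℕ, 1 ≤ M ∧ ∀ x y : Q, x⁻¹ * y ∈ commutator Q → x ^ M = y ^ M := by
  have hle : ∀ i, (⊤ : Subgroup Q).lowerCentralSeries (i + 1) ≤ commutator Q := by
    intro i
    have h := Subgroup.lowerCentralSeries_antitone (⊤ : Subgroup Q) (Nat.le_add_left 1 i)
    rwa [Subgroup.top_lowerCentralSeries_one] at h
  have hstep : ∀ i, ∀ x y : Q, x⁻¹ * y ∈ (⊤ : Subgroup Q).lowerCentralSeries (i + 1) →
      (x ^ E)⁻¹ * y ^ E ∈ (⊤ : Subgroup Q).lowerCentralSeries (i + 2) := by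
    intro i x y hxy
    let π : Q →* Q ⧸ (⊤ : Subgroup Q).lowerCentralSeries (i + 2) := QuotientGroup.mk' _
    have hker : ∀ x, π x = 1 ↔ x ∈ (⊤ : Subgroup Q).lowerCentralSeries (i + 2) := fun x =>
      QuotientGroup.eq_one_iff x
    have h1 : ⁅x⁻¹ * y, x⁆ ∈ (⊤ : Subgroup Q).lowerCentralSeries (i + 2) := by
      rw [show i + 2 = (i + 1) + 1 from rfl, Subgroup.lowerCentralSeries_succ]
      exact Subgroup.commutator_mem_commutator hxy (Subgroup.mem_top x)
    have h2 : Commute (π (x⁻¹ * y)) (π x) := by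
      rw [← commutatorElement_eq_one_iff_commute, ← map_commutatorElement]
      exact (hker _).2 h1
    have h3 : π y = π x * π (x⁻¹ * y) := by rw [← map_mul, mul_inv_cancel_left]
    have h4 : π (x⁻¹ * y) ^ E = 1 := by rw [← map_pow, hE _ (hle i hxy), map_one]
    rw [← hker, map_mul, map_inv, map_pow, map_pow, h3, (h2.symm).mul_pow, h4, mul_one,
      inv_mul_cancel]
  obtain ⟨c, hc⟩ := Subgroup.nilpotent_iff_lowerCentralSeries.1 hQ
  have hall : ∀ i, ∀ x y : Q, x⁻¹ * y ∈ commutator Q →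
      (x ^ E ^ i)⁻¹ * y ^ E ^ i ∈ (⊤ : Subgroup Q).lowerCentralSeries (i + 1) := by
    intro i
    induction i with
    | zero =>
      intro x y hxy
      rw [pow_zero, pow_one, pow_one, zero_add, Subgroup.top_lowerCentralSeries_one]
      exact hxy
    | succ i ih =>
      intro x y hxy
      rw [pow_succ, pow_mul, pow_mul]
      exact hstep i _ _ (ih x y hxy)
  refine ⟨E ^ c, Nat.pos_of_ne_zero (pow_ne_zero _ (by omega)), fun x y hxy => ?_⟩
  have h1 := hall c x y hxy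
  have h2 : (⊤ : Subgroup Q).lowerCentralSeries (c + 1) ≤ (⊤ : Subgroup Q).lowerCentralSeries c :=
    Subgroup.lowerCentralSeries_antitone _ (Nat.le_succ c)
  have h3 := h2 h1
  rw [hc, Subgroup.mem_bot, inv_mul_eq_one] at h3
  exact h3

variable {G : Type u} [Group G] {H : ℕ → Type v} [∀ i, Group (H i)]

theorem main_nb (f : (∀ i, H i) →* G) (hf : Function.Surjective f) (U : Ultrafilter ℕ)
    (hU : ∀ n, U ≠ pure n) (hker : ∀ h : ∀ i, H i, {i | h i = 1} ∈ U → f h = 1)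
    (htors : ∀ g : G, ∃ n : ℕ, 1 ≤ n ∧ g ^ n = 1) (hunb : ∀ n : ℕ, 1 ≤ n → ∃ g : G, g ^ n ≠ 1)
    (N : Subgroup G) [hN : N.Normal] (hnil : Group.IsNilpotent N) (e : ℕ) (he : 1 ≤ e)
    (hNe : ∀ g : G, g ^ e ∈ N) :
    ∃ D : Subgroup G, D ≠ ⊥ ∧ ∀ d ∈ D, ∀ n : ℕ, 1 ≤ n → ∃ y ∈ D, y ^ n = d := by
  -- the commutator subgroup of `N`
  have hmem : ∀ x : N, x ∈ commutator N ↔ (x : G) ∈ ⁅N, N⁆ := by
    intro x
    have h1 : (commutator N).map N.subtype = ⁅N, N⁆ := by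
      rw [commutator_def, Subgroup.map_commutator, ← MonoidHom.range_eq_map,
        Subgroup.range_subtype]
    rw [← h1, Subgroup.mem_map]
    constructor
    · intro h
      exact ⟨x, h, rfl⟩
    · rintro ⟨y, hy, hyx⟩
      have : y = x := Subtype.ext hyx
      rw [← this]
      exact hy
  let C : Subgroup G := ⁅N, N⁆
  haveI hC : C.Normal := Subgroup.commutator_normal N N
  let A : Subgroup (G ⧸ C) := N.map (QuotientGroup.mk' C)
  have hA : ∀ a ∈ A, ∀ b ∈ A, a * b = b * a := by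
    rintro _ ⟨a, ha, rfl⟩ _ ⟨b, hb, rfl⟩
    have h1 : ⁅QuotientGroup.mk' C a, QuotientGroup.mk' C b⁆ = 1 := by
      rw [← map_commutatorElement]
      exact (QuotientGroup.eq_one_iff _).2 (Subgroup.commutator_mem_commutator ha hb)
    exact commutatorElement_eq_one_iff_mul_comm.1 h1
  have hAe : ∀ g : G ⧸ C, g ^ e ∈ A := by
    intro g
    obtain ⟨g, rfl⟩ := QuotientGroup.mk_surjective g
    exact ⟨g ^ e, hNe g, rfl⟩
  have htorsC : ∀ g : G ⧸ C, ∃ n : ℕ, 1 ≤ n ∧ g ^ n = 1 := by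
    intro g
    obtain ⟨g, rfl⟩ := QuotientGroup.mk_surjective g
    obtain ⟨n, hn, h⟩ := htors g
    exact ⟨n, hn, by rw [← QuotientGroup.mk_pow, h, QuotientGroup.mk_one]⟩
  obtain ⟨E, hE, hE'⟩ := exists_exp (f := (QuotientGroup.mk' C).comp f)
    ((QuotientGroup.mk'_surjective C).comp hf) hU
    (fun h hh => by rw [MonoidHom.comp_apply, hker h hh, map_one]) htorsC A hA e he hAe
  -- the abelianization of `N`
  have hab : ∀ (x : Abelianization N) (n : ℕ), ∃ y : Abelianization N,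
      y ^ n.factorial = x ^ E := by
    intro x n
    obtain ⟨x, rfl⟩ := QuotientGroup.mk_surjective x
    obtain ⟨_, ⟨y, hy, rfl⟩, hyx⟩ := hE' (QuotientGroup.mk' C (x : G)) ⟨x, x.2, rfl⟩ n
    refine ⟨Abelianization.of (⟨y, hy⟩ : N), ?_⟩
    have h1 : (QuotientGroup.mk' C) (((x : G) ^ E)⁻¹ * y ^ n.factorial) = 1 := by
      rw [map_mul, map_inv, map_pow, map_pow, hyx, inv_mul_cancel]
    have h2 : ((x : G) ^ E)⁻¹ * y ^ n.factorial ∈ ⁅N, N⁆ := (QuotientGroup.eq_one_iff _).1 h1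
    have h3 : (x ^ E)⁻¹ * (⟨y, hy⟩ : N) ^ n.factorial ∈ commutator N := (hmem _).2 h2
    have h4 : Abelianization.of ((x ^ E)⁻¹ * (⟨y, hy⟩ : N) ^ n.factorial) = 1 :=
      (QuotientGroup.eq_one_iff _).2 h3
    rw [map_mul, map_inv, map_pow, map_pow, inv_mul_eq_one] at h4
    exact h4.symm
  have htorsN : ∀ g : N, ∃ n : ℕ, 1 ≤ n ∧ g ^ n = 1 := by
    intro g
    obtain ⟨n, hn, h⟩ := htors g
    exact ⟨n, hn, Subtype.ext h⟩
  obtain ⟨E', hE1, hE1'⟩ := nil_bdd htorsN hE hab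
  obtain ⟨M, hM, hM'⟩ := pow_congr hE1 (fun u hu => hE1' 1 1 u hu)
  have hunb' : ∃ x ∈ A, x ^ E ≠ 1 := by
    obtain ⟨g, hg⟩ := hunb (e * (E * E')) (Nat.mul_pos he (Nat.mul_pos hE hE1))
    refine ⟨QuotientGroup.mk' C (g ^ e), ⟨g ^ e, hNe g, rfl⟩, fun h => hg ?_⟩
    rw [← map_pow] at h
    have h1 : (g ^ e) ^ E ∈ ⁅N, N⁆ := (QuotientGroup.eq_one_iff _).1 h
    have h2 : (⟨g ^ e, hNe g⟩ : N) ^ E ∈ commutator N := (hmem _).2 h1
    have h3 := hE1' 1 1 _ h2
    have h4 : ((g ^ e) ^ E) ^ E' = 1 := congrArg Subtype.val h3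
    rw [pow_mul, pow_mul]
    exact h4
  obtain ⟨c, hcA, hc, hc0⟩ := exists_roots hE hE' hunb' (fun n => M * (n + 1).factorial)
    (fun n => Nat.mul_pos hM (Nat.factorial_pos _))
  choose y hyN hy using hcA
  have hpow : ∀ n, (y (n + 1) ^ (M * (n + 1).factorial)) ∈ N := fun n => N.pow_mem (hyN _) _
  have hcongr : ∀ n, (y (n + 1) ^ (M * (n + 1).factorial)) ^ M = y n ^ M := by
    intro n
    have h1 : QuotientGroup.mk' C ((y (n + 1) ^ (M * (n + 1).factorial))⁻¹ * y n) = 1 := by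
      rw [map_mul, map_inv, map_pow, hy, hy, ← hc n, inv_mul_cancel]
    have h2 : (y (n + 1) ^ (M * (n + 1).factorial))⁻¹ * y n ∈ ⁅N, N⁆ :=
      (QuotientGroup.eq_one_iff _).1 h1
    have h3 := hM' ⟨_, hpow n⟩ ⟨_, hyN n⟩ ((hmem _).2 h2)
    exact congrArg Subtype.val h3
  refine divisible_of_seq (e := M) (fun n => y (n + 1) ^ (M * (n + 1).factorial)) (fun n => ?_) ?_
  · show y (n + 1) ^ (M * (n + 1).factorial) =
      (y (n + 1 + 1) ^ (M * (n + 1 + 1).factorial)) ^ (M * (n + 1).factorial)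
    rw [pow_mul (y (n + 1 + 1) ^ (M * (n + 1 + 1).factorial)) M, hcongr (n + 1), ← pow_mul]
  · show y (0 + 1) ^ (M * (0 + 1).factorial) ≠ 1
    intro h
    apply hc0
    rw [hc 0, ← hy (0 + 1), ← map_pow, h, map_one]

end Pool.Agent.R677.UI
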